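import Pool.Agent.Run7.h887.Main1

/-!
The bound `E ≥ 4π |deg φ|` for every finite-energy configuration, with no hypothesis on the current,
and its equality case.
-/

open MeasureTheory Run7.h887

theorem Pool.Agent.Results.MP_5f0afd_mp.EnergyBound.result
    (φ : ℝ × ℝ → Fin 3 → ℝ) (A : ℝ × ℝ → ℝ × ℝ) (hconf : IsConfig φ A) :
    (∀ d : ℤ, HasDegree φ d → 4 * Real.pi * |(d : ℝ)| ≤ energy φ A ∧
      (energy φ A = 4 * Real.pi * |(d : ℝ)| ↔ (SelfDual φ A ∨ AntiSelfDual φ A))) ∧
    4 * Real.pi * |degInt φ| ≤ energy φ A := by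
  refine ⟨fun d hd => ?_, ?_⟩
  · have hl := degLim_of_hasDegree hd
    exact ⟨energy_ge hconf hl, energy_eq_iff hconf hl⟩
  · by_cases h0 : degInt φ = 0
    · rw [h0, abs_zero, mul_zero]
      unfold energy
      have : 0 ≤ ∫ x, dens φ A x := integral_nonneg fun x => dens_nonneg x
      positivity
    · exact energy_ge hconf (degLim_of_degInt hconf.smooth_phi hconf.sphere h0)
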