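import Pool.Agent.Run7.h887.Lump

/-!
Among finite-energy configurations of degree one the infimum of the energy is `4π` and it is not
attained.
-/

open MeasureTheory Run7.h887

theorem Pool.Agent.Results.MP_5f0afd_mp.NoMinimizer.result :
    (∀ (φ : ℝ × ℝ → Fin 3 → ℝ) (A : ℝ × ℝ → ℝ × ℝ), IsConfig φ A →
      HasDegree φ 1 ∨ degInt φ = 1 → 4 * Real.pi < energy φ A) ∧
    ∀ ε : ℝ, 0 < ε → ∃ (φ : ℝ × ℝ → Fin 3 → ℝ) (A : ℝ × ℝ → ℝ × ℝ),
      IsConfig φ A ∧ HasDegree φ 1 ∧ energy φ A < 4 * Real.pi + ε := by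
  have hpi := Real.pi_pos
  refine ⟨fun φ A hconf hd => ?_, fun ε hε => ?_⟩
  · have hl : IsDegLim φ 1 := by
      rcases hd with hd | hd
      · have := degLim_of_hasDegree hd
        simpa using this
      · have := degLim_of_degInt hconf.smooth_phi hconf.sphere (by rw [hd]; norm_num)
        rwa [hd] at this
    have h1 := energy_ge hconf hl
    rw [abs_one, mul_one] at h1
    refine lt_of_le_of_ne h1 fun heq => ?_
    have h2 := (energy_eq_iff hconf hl).1 (by rw [abs_one, mul_one]; exact heq.symm)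
    exact not_one hconf hl h2 abs_one
  · set l := Real.sqrt (ε / (4 * Real.pi)) with hl
    have hl0 : 0 < l := Real.sqrt_pos.2 (by positivity)
    refine ⟨lump l, zA, lump_config hl0, lump_degree hl0, ?_⟩
    rw [lump_energy hl0, hl, Real.sq_sqrt (by positivity)]
    have : 2 * Real.pi * (ε / (4 * Real.pi)) = ε / 2 := by field_simp; ring
    rw [this]; linarith
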