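import Pool.Agent.Run7.h887.Equi5

/-!
A rotationally equivariant finite-energy critical point, self-dual or not and of any winding
number, does not have degree `±1`.
-/

open MeasureTheory Run7.h887

theorem Pool.Agent.Results.MP_5f0afd_mp.RadialNonexistence.result
    (φ : ℝ × ℝ → Fin 3 → ℝ) (A : ℝ × ℝ → ℝ × ℝ) (hconf : IsConfig φ A) (hcrit : IsCritical φ A)
    (N : ℤ) (hequi : Equivariant N φ A) :
    (∀ d : ℤ, HasDegree φ d → d ≠ 1 ∧ d ≠ -1) ∧ degInt φ ≠ 1 ∧ degInt φ ≠ -1 := by
  refine ⟨?_, ?_, ?_⟩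
  · intro d hd
    have hl := degLim_of_hasDegree hd
    refine ⟨?_, ?_⟩
    · rintro rfl
      exact no_equi hconf hcrit hequi hl (by simp)
    · rintro rfl
      exact no_equi hconf hcrit hequi hl (by simp)
  · intro h1
    have hl := degLim_of_degInt hconf.smooth_phi hconf.sphere (by rw [h1]; norm_num)
    exact no_equi hconf hcrit hequi hl (by rw [h1]; simp)
  · intro h1
    have hl := degLim_of_degInt hconf.smooth_phi hconf.sphere (by rw [h1]; norm_num)
    exact no_equi hconf hcrit hequi hl (by rw [h1]; simp)
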