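import Pool.Agent.Run7.h887.Main1

/-!
Finite-energy critical points whose field strength vanishes at the points where `φ = n` are
self-dual or anti-self-dual; in particular their degree is not `±1`.
-/

open MeasureTheory Run7.h887

theorem Pool.Agent.Results.MP_5f0afd_mp.VacuumField.result
    (φ : ℝ × ℝ → Fin 3 → ℝ) (A : ℝ × ℝ → ℝ × ℝ) (hconf : IsConfig φ A) (hcrit : IsCritical φ A)
    (hvac : ∀ x, φ x = nv → fld A x = 0) :
    (SelfDual φ A ∨ AntiSelfDual φ A) ∧
      (∀ d : ℤ, HasDegree φ d → energy φ A = 4 * Real.pi * |(d : ℝ)| ∧ d ≠ 1 ∧ d ≠ -1) ∧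
      degInt φ ≠ 1 ∧ degInt φ ≠ -1 := by
  have hs := hconf.sphere
  have hvac' : ∀ x, uu φ x = 0 → fld A x = 0 := by
    intro x hx
    apply hvac
    have h1 := sph3 hs x
    unfold uu at hx
    have a1 : φ x 2 = 1 := by linarith
    rw [a1] at h1
    have b0 : φ x 0 = 0 := by nlinarith [sq_nonneg (φ x 0), sq_nonneg (φ x 1)]
    have b1 : φ x 1 = 0 := by nlinarith [sq_nonneg (φ x 0), sq_nonneg (φ x 1)]
    funext i
    fin_cases i
    · simpa [nv] using b0
    · simpa [nv] using b1
    · simpa [nv] using a1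
  have hsd := sd_or_asd hconf hcrit hvac'
  refine ⟨hsd, ?_, ?_, ?_⟩
  · intro d hd
    have hl := degLim_of_hasDegree hd
    have h1 := (energy_eq_iff hconf hl).2 hsd
    have h2 := not_one hconf hl hsd
    refine ⟨h1, ?_, ?_⟩
    · rintro rfl
      apply h2; simp
    · rintro rfl
      apply h2; simp
  · intro h1
    have hl := degLim_of_degInt hconf.smooth_phi hs (by rw [h1]; norm_num)
    apply not_one hconf hl hsd
    rw [h1]; simp
  · intro h1
    have hl := degLim_of_degInt hconf.smooth_phi hs (by rw [h1]; norm_num)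
    apply not_one hconf hl hsd
    rw [h1]; simp
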